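import Pool.Agent.LeoK.CountStmts

/-! USQ: only units `m` have `3 m` a square. -/

set_option autoImplicit false

open NumberField IsDedekindDomain Module

namespace Pool.Agent.LeoK.H90

theorem exists_prime_of_max {k : Type} [Field k] [NumberField k] (P : Ideal (𝓞 k))
    (hP : P.IsMaximal) : ∃ p : HeightOneSpectrum (𝓞 k), p.asIdeal = P :=
  ⟨⟨P, hP.isPrime, Ring.ne_bot_of_isMaximal_of_not_isField hP
    (RingOfIntegers.not_isField k)⟩, rfl⟩

theorem not_mem_of_loc {k : Type} [Field k] [NumberField k] {m : 𝓞 k} (hm0 : m ≠ 0)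
    (p : HeightOneSpectrum (𝓞 k)) (hloc : LocOK p m) {x : k} (hx : x ^ 2 = 3 * (m : k)) :
    m ∉ p.asIdeal := by
  intro hmp
  by_cases h3 : (3 : 𝓞 k) ∈ p.asIdeal
  · have h4 := hloc.three h3 0
    apply h4
    simpa using hmp
  · have h5 : p.valuation k x ^ 2 = p.valuation k ((3 : 𝓞 k) : k) * p.valuation k (m : k) := by
      rw [← map_pow, hx, ← map_mul]
      congr 1
    rw [HeightOneSpectrum.valuation_of_algebraMap, HeightOneSpectrum.valuation_of_algebraMap,
      HeightOneSpectrum.intValuation_eq_one_iff.2 h3, one_mul] at h5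
    have h6 : p.intValuation m ≤ WithZero.exp (-((1 : ℕ) : ℤ)) :=
      (p.intValuation_le_pow_iff_mem m 1).2 (by rwa [pow_one])
    have h7 : ¬ p.intValuation m ≤ WithZero.exp (-((2 : ℕ) : ℤ)) := fun h =>
      hloc.sqf ((p.intValuation_le_pow_iff_mem m 2).1 h)
    have h8 : p.intValuation m ≠ 0 := p.intValuation_ne_zero m hm0
    obtain ⟨j, hj⟩ : ∃ j : ℤ, p.intValuation m = WithZero.exp j :=
      ⟨WithZero.log (p.intValuation m), (WithZero.exp_log h8).symm⟩
    rw [hj, WithZero.exp_le_exp] at h6 h7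
    have hx0 : p.valuation k x ≠ 0 := by
      intro h
      rw [h, zero_pow two_ne_zero] at h5
      exact h8 h5.symm
    obtain ⟨i, hi⟩ : ∃ i : ℤ, p.valuation k x = WithZero.exp i :=
      ⟨WithZero.log (p.valuation k x), (WithZero.exp_log hx0).symm⟩
    rw [hi, hj, ← WithZero.exp_nsmul, WithZero.exp_inj] at h5
    rw [nsmul_eq_mul] at h5
    push_cast at h5 h6 h7
    omega

theorem usq (hN : NorStmt) : UsqStmt := by
  intro k _ _ hk m x hloc hx
  have hm0 : m ≠ 0 := by
    rintro rfl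
    obtain ⟨P, hP⟩ := Ideal.exists_maximal (𝓞 k)
    obtain ⟨p, hp⟩ := exists_prime_of_max P hP
    exact (hloc p).sqf (Ideal.zero_mem _)
  have hunit : IsUnit m := by
    by_contra hnu
    obtain ⟨P, hP, hmP⟩ := exists_max_ideal_of_mem_nonunits hnu
    obtain ⟨p, hp⟩ := exists_prime_of_max P hP
    rw [← hp] at hmP
    exact not_mem_of_loc hm0 p (hloc p) hx hmP
  rw [((hN k hk).2.2 m hm0).2, Ideal.span_singleton_eq_top.2 hunit, Ideal.absNorm_top]
  simp

end Pool.Agent.LeoK.H90
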