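import Pool.Agent.LeoK.UpStmts

/-! LD2: forms over a finite field of characteristic 2 with `M ≠ 0`. -/

set_option autoImplicit false

namespace Pool.Agent.LeoK.H90

theorem ld2 : Ld2Stmt := by
  intro A _ _ h2
  have hM : ∀ v : Q4 A, qM v ≠ 0 ↔ (!![v 0, v 1; v 2, v 3] : Matrix (Fin 2) (Fin 2) A).det ≠ 0 := by
    intro v
    have h1 : qM v = -((!![v 0, v 1; v 2, v 3] : Matrix (Fin 2) (Fin 2) A).det) ^ 2 := by
      rw [Matrix.det_fin_two_of]
      unfold qM fM fP fQ fR
      linear_combination 2 * (v 1 ^ 2 - v 0 * v 2) * (v 2 ^ 2 - v 1 * v 3) * h2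
    rw [h1, Ne, neg_eq_zero, pow_eq_zero_iff two_ne_zero]
  have e : {v : Q4 A // qM v ≠ 0} ≃ Matrix.GeneralLinearGroup (Fin 2) A :=
    { toFun := fun v => Matrix.GeneralLinearGroup.mkOfDetNeZero
        !![v.1 0, v.1 1; v.1 2, v.1 3] ((hM v.1).1 v.2)
      invFun := fun M => ⟨![M.1 0 0, M.1 0 1, M.1 1 0, M.1 1 1], (hM _).2 (by
        have h1 : (!![(![M.1 0 0, M.1 0 1, M.1 1 0, M.1 1 1] : Q4 A) 0,
            (![M.1 0 0, M.1 0 1, M.1 1 0, M.1 1 1] : Q4 A) 1;
            (![M.1 0 0, M.1 0 1, M.1 1 0, M.1 1 1] : Q4 A) 2,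
            (![M.1 0 0, M.1 0 1, M.1 1 0, M.1 1 1] : Q4 A) 3] : Matrix (Fin 2) (Fin 2) A) =
              M.1 := by
          ext i j
          fin_cases i <;> fin_cases j <;> rfl
        rw [h1]
        exact (Matrix.isUnits_det_units M).ne_zero)⟩
      left_inv := by
        rintro ⟨v, hv⟩
        apply Subtype.ext
        funext i
        fin_cases i <;> rfl
      right_inv := by
        intro M
        apply Units.ext
        ext i j
        fin_cases i <;> fin_cases j <;> rfl }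
  rw [Nat.card_congr e, Matrix.card_GL_field]
  rw [Fin.prod_univ_two]
  have hq : 1 < Fintype.card A := Fintype.one_lt_card
  have hq0 : (Fintype.card A : ℝ) ≠ 0 := by positivity
  have h3 : Fintype.card A ≤ Fintype.card A ^ 2 := Nat.le_self_pow two_ne_zero _
  have h4 : 1 ≤ Fintype.card A ^ 2 := hq.le.trans h3
  simp only [Fin.val_zero, Fin.val_one, pow_zero, pow_one]
  rw [Nat.cast_mul, Nat.cast_sub h4, Nat.cast_sub h3]
  push_cast
  field_simp

end Pool.Agent.LeoK.H90
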