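import Pool.Agent.LeoK.StrStmts

/-! QLO: local elements of a quadratic extension, seen from the base field. -/

set_option autoImplicit false

open Module
open Pool.Agent.Leo3

namespace Pool.Agent.LeoK.H90

/-- coordinates in a quadratic extension -/
theorem coords {k K : Type} [Field k] [Field K] [Algebra k K] (h2 : finrank k K = 2) {α : K}
    (hα : ∀ x : k, algebraMap k K x ≠ α) (y : K) :
    ∃ p q : k, y = algebraMap k K p + algebraMap k K q * α := by
  have hli : LinearIndependent k ![(1 : K), α] := by
    rw [LinearIndependent.pair_iff]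
    intro s t hst
    have ht : t = 0 := by
      by_contra ht
      apply hα (-(s / t))
      have h3 : algebraMap k K t ≠ 0 := by
        rwa [Ne, FaithfulSMul.algebraMap_eq_zero_iff]
      rw [map_neg, map_div₀, neg_eq_iff_eq_neg, div_eq_iff h3]
      rw [Algebra.smul_def, Algebra.smul_def, mul_one] at hst
      linear_combination hst
    rw [ht, zero_smul, add_zero, Algebra.smul_def, mul_one,
      FaithfulSMul.algebraMap_eq_zero_iff] at hst
    exact ⟨hst, ht⟩
  have hfin : FiniteDimensional k K := FiniteDimensional.of_finrank_pos (by rw [h2]; norm_num)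
  have hcard : Fintype.card (Fin 2) = finrank k K := by rw [h2]; rfl
  have hspan : Submodule.span k (Set.range ![(1 : K), α]) = ⊤ :=
    hli.span_eq_top_of_card_eq_finrank' hcard
  have hy : y ∈ Submodule.span k (Set.range ![(1 : K), α]) := by
    rw [hspan]
    trivial
  rw [Matrix.range_cons, Matrix.range_cons, Matrix.range_empty, Set.union_empty,
    Set.singleton_union, Submodule.mem_span_pair] at hy
  obtain ⟨p, q, hpq⟩ := hy
  refine ⟨p, q, ?_⟩
  rw [← hpq, Algebra.smul_def, Algebra.smul_def, mul_one]

theorem qlo : QloStmt := by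
  intro k K _ _ _ τ h2 hτ φ ρ hρ
  have hex : ∃ α : K, τ α ≠ α := by
    by_contra hcon
    push Not at hcon
    apply hτ
    ext x
    exact hcon x
  obtain ⟨α, hα⟩ := hex
  have hαk : ∀ x : k, algebraMap k K x ≠ α := by
    intro x hx
    apply hα
    rw [← hx, AlgEquiv.commutes]
  have hco := coords h2 hαk
  obtain ⟨n, s, hs⟩ := hco (α ^ 2)
  have hτα : τ α = algebraMap k K s - α := by
    have h1 := congrArg τ hs
    rw [map_pow, map_add, map_mul, AlgEquiv.commutes, AlgEquiv.commutes] at h1
    have h3 : (τ α - α) * (τ α + α - algebraMap k K s) = 0 := by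
      linear_combination h1 - hs
    have h4 := (mul_eq_zero.1 h3).resolve_left (sub_ne_zero.2 hα)
    linear_combination h4
  have hρk : ∀ x : k, ρ (φ (algebraMap k K x)) = φ (algebraMap k K x) := fun x => hρ x
  have hρα : ρ (φ α) = φ α ∨ ρ (φ α) = φ (τ α) := by
    have h0 := congrArg φ hs
    rw [map_pow, map_add, map_mul] at h0
    have h1 := congrArg ρ h0
    rw [map_pow, map_add, map_mul, hρk, hρk] at h1
    have h3 : (ρ (φ α) - φ α) * (ρ (φ α) + φ α - φ (algebraMap k K s)) = 0 := by
      linear_combination h1 - h0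
    rcases mul_eq_zero.1 h3 with h4 | h4
    · left
      exact sub_eq_zero.1 h4
    · right
      rw [hτα, map_sub]
      linear_combination h4
  have hmain : (∀ x : K, ρ (φ x) = φ x) ∨ (∀ x : K, ρ (φ x) = φ (τ x)) := by
    rcases hρα with h | h
    · left
      intro x
      obtain ⟨p, q, hpq⟩ := hco x
      rw [hpq, map_add, map_mul, map_add, map_mul, hρk, hρk, h]
    · right
      intro x
      obtain ⟨p, q, hpq⟩ := hco x
      rw [hpq, map_add φ, map_mul φ, map_add ρ, map_mul ρ, hρk, hρk, h, map_add τ, map_mul τ,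
        AlgEquiv.commutes, AlgEquiv.commutes, map_add φ, map_mul φ]
  refine ⟨hmain, fun t ht ρ' hρ' => ?_⟩
  have h5 := ht ((ρ.trans ρ').trans ρ.symm) (by
    intro x
    show ρ.symm (ρ' (ρ (φ x))) = φ x
    rcases hmain with h | h
    · rw [h, hρ' x, AlgEquiv.symm_apply_eq, h]
    · rw [h, hρ' (τ x), AlgEquiv.symm_apply_eq, h])
  have h6 : ρ.symm (ρ' (ρ t)) = t := h5
  rw [AlgEquiv.symm_apply_eq] at h6
  exact h6

end Pool.Agent.LeoK.H90
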