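import Pool.Agent.LeoK.UpStmts

/-! REA: real inequalities at one place. -/

set_option autoImplicit false

namespace Pool.Agent.LeoK.H90

theorem syz (a b c d : ℝ) : fX a b c d ^ 2 + a ^ 2 * fM a b c d = 4 * fP a b c ^ 3 := by
  unfold fX fM fP fQ fR
  ring

theorem rea : ReaStmt := by
  refine ⟨syz, ?_⟩
  intro a b c y ha hP hy
  obtain ⟨S, hS⟩ : ∃ S : ℝ, S = fP a b c ^ (3 / 2 : ℝ) := ⟨_, rfl⟩
  have hS0 : 0 < S := by rw [hS]; exact Real.rpow_pos_of_pos hP _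
  have hS2 : S ^ 2 = fP a b c ^ 3 := by
    rw [hS, ← Real.rpow_natCast, ← Real.rpow_mul hP.le, ← Real.rpow_natCast]
    norm_num
  have ha2 : 0 < a ^ 2 := by positivity
  obtain ⟨W, hW⟩ : ∃ W : ℝ, W = Real.sqrt (4 * S ^ 2 - a ^ 2 * y) := ⟨_, rfl⟩
  have hW0 : 0 ≤ W := by rw [hW]; exact Real.sqrt_nonneg _
  have hW2 : 4 * S ^ 2 - a ^ 2 * y ≤ W ^ 2 := by
    rcases le_total 0 (4 * S ^ 2 - a ^ 2 * y) with h | h
    · rw [hW, Real.sq_sqrt h]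
    · exact h.trans (sq_nonneg _)
  have hWS : W ≤ 2 * S := by
    rw [hW]
    apply Real.sqrt_le_iff.2 ⟨by linarith, ?_⟩
    nlinarith [mul_pos ha2 hy]
  have hlen : (2 * S - W) / a ^ 2 ≤ y / S := by
    rw [div_le_div_iff₀ ha2 hS0]
    nlinarith
  rw [← hS]
  refine ⟨(W - 2 * b ^ 3 + 3 * a * b * c) / a ^ 2, (-(2 * S) - 2 * b ^ 3 + 3 * a * b * c) / a ^ 2,
    fun d h1 h2 => ?_⟩
  have h3 := syz a b c d
  obtain ⟨X, hX⟩ : ∃ X : ℝ, X = fX a b c d := ⟨_, rfl⟩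
  have hd : d = (X - 2 * b ^ 3 + 3 * a * b * c) / a ^ 2 := by
    rw [hX, eq_div_iff ha2.ne']
    unfold fX
    ring
  rw [← hX, ← hS2] at h3
  have h4 : X ^ 2 < (2 * S) ^ 2 := by nlinarith [mul_pos ha2 h1]
  have h5 : 4 * S ^ 2 - a ^ 2 * y ≤ X ^ 2 := by nlinarith [mul_le_mul_of_nonneg_left h2 ha2.le]
  have h6 := abs_lt_of_sq_lt_sq' h4 (by linarith)
  have hdiv : ∀ u v : ℝ, u ≤ v → u / a ^ 2 ≤ v / a ^ 2 := fun u v h =>
    div_le_div_of_nonneg_right h ha2.le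
  have hadd : ∀ u : ℝ, (u + (2 * S - W)) / a ^ 2 ≤ u / a ^ 2 + y / S := by
    intro u
    rw [add_div]
    linarith
  rcases le_total 0 X with h | h
  · left
    have h7 : W ≤ X := by
      rw [hW]
      exact Real.sqrt_le_iff.2 ⟨h, h5⟩
    rw [hd]
    exact ⟨hdiv _ _ (by linarith), (hdiv _ _ (by linarith [h6.2])).trans (hadd _)⟩
  · right
    have h7 : W ≤ -X := by
      rw [hW]
      exact Real.sqrt_le_iff.2 ⟨by linarith, by rw [neg_sq]; exact h5⟩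
    rw [hd]
    exact ⟨hdiv _ _ (by linarith [h6.1]), (hdiv _ _ (by linarith)).trans (hadd _)⟩

end Pool.Agent.LeoK.H90
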