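import Pool.Agent.LeoK.StrStmts

/-! REF: the reflection step. -/

set_option autoImplicit false

open NumberField Module
open Pool.Agent.Leo3

namespace Pool.Agent.LeoK.H90

theorem ref (hU : UnrStmt) (hH : HilStmt) (hR : RnkStmt) : RefStmt := by
  intro k F _ _ _ _ _ m s hreal h2 hs hadm hbad
  obtain ⟨t₀, s₀, hb⟩ := hbad
  obtain ⟨L, _, _, _, hgal, h3, hunr⟩ := hU k F m s t₀ s₀ h2 hs hb
  obtain ⟨hrank, hcube⟩ := hR k F L m s hreal h2 hs hadm.pos hadm.nsq h3
  exact hH F L h3 (fun P _ hP => hunr P hP) hrank hcube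

end Pool.Agent.LeoK.H90
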