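import Pool.Agent.LeoK.CountStmts

/-! RES: congruence conditions modulo coprime ideals are independent. -/

set_option autoImplicit false

namespace Pool.Agent.LeoK.H90

/-- the Chinese remainder theorem for the product -/
theorem crt {R : Type} [CommRing R] {ι : Type} [Fintype ι] (I : ι → Ideal R)
    (hI : ∀ i j, i ≠ j → IsCoprime (I i) (I j)) :
    ∃ e : (R ⧸ ∏ i, I i) ≃+* ∀ i, R ⧸ I i,
      ∀ (x : R) (i : ι), e (Ideal.Quotient.mk (∏ i, I i) x) i = Ideal.Quotient.mk (I i) x := by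
  have h1 : ∏ i, I i = ⨅ i, I i := by
    rw [Ideal.prod_eq_iInf_of_pairwise_isCoprime (fun i _ j _ hij => hI i j hij)]
    simp
  refine ⟨(Ideal.quotEquivOfEq h1).trans
    (Ideal.quotientInfRingEquivPiQuotient I (fun i j hij => hI i j hij)), fun x i => ?_⟩
  rfl

theorem res : ResStmt := by
  intro R _ ι τ _ _ I hI S
  obtain ⟨e, he⟩ := crt I hI
  let E : (τ → R ⧸ ∏ i, I i) ≃ ∀ i, (τ → R ⧸ I i) :=
    (Equiv.piCongrRight fun _ => e.toEquiv).trans (Equiv.piComm fun (_ : τ) (i : ι) => R ⧸ I i)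
  have hE : ∀ (x : τ → R) (i : ι), E (fun a => Ideal.Quotient.mk (∏ i, I i) (x a)) i =
      fun a => Ideal.Quotient.mk (I i) (x a) := by
    intro x i
    funext a
    exact he (x a) i
  refine ⟨{f | ∀ i, E f i ∈ S i}, fun x => ?_, ?_⟩
  · show (∀ i, E _ i ∈ S i) ↔ _
    simp only [hE]
  · have e1 : {f | ∀ i, E f i ∈ S i} ≃ ∀ i, S i :=
      (Equiv.subtypeEquiv E (fun f => Iff.rfl)).trans
        (Equiv.subtypePiEquivPi (β := fun i => τ → R ⧸ I i) (p := fun i => (· ∈ S i)))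
    rw [← Nat.card_coe_set_eq, Nat.card_congr e1, Nat.card_pi]
    exact Finset.prod_congr rfl fun i _ => Nat.card_coe_set_eq _

end Pool.Agent.LeoK.H90
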